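import Pool.Agent.Lib.MP_214199_co.Upper
import Pool.Agent.Lib.MP_214199_co.Lower

/-!
# The orchard problem for 15 points: `t(15) = 31`
-/

set_option autoImplicit false

namespace Pool.Agent.Results.MP_214199_co.OrchardFifteen

open Pool.Agent.Lib.MP_214199_co

/-- The largest number of lines that contain at least three points of a set of 15 points of the
Euclidean plane is 31. -/
theorem result : IsGreatest {m : ℕ | ∃ S : Finset (EuclideanSpace ℝ (Fin 2)),
    S.card = 15 ∧ (heavyLines S).ncard = m} 31 := by
  constructor
  · obtain ⟨S, hS, h31⟩ := exists_31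
    exact ⟨S, hS, le_antisymm (ncard_heavyLines_le hS) h31⟩
  · rintro m ⟨S, hS, rfl⟩
    exact ncard_heavyLines_le hS

end Pool.Agent.Results.MP_214199_co.OrchardFifteen
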