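import Pool.Agent.Lib.MP_214199_co.Eff.Final

/-!
# The orchard problem for all `n ≥ 5 * 10^7`
-/

set_option autoImplicit false

namespace Pool.Agent.Results.MP_214199_co.OrchardThreshold

open Pool.Agent.Lib.MP_214199_co

/-- For every `n ≥ 5 * 10^7` the largest number of lines that contain at least three points of a
set of `n` points of the Euclidean plane is `⌊n (n - 3) / 6⌋ + 1`. -/
theorem result (n : ℕ) (hn : 5 * 10 ^ 7 ≤ n) :
    IsGreatest {m : ℕ | ∃ S : Finset (EuclideanSpace ℝ (Fin 2)),
      S.card = n ∧ (heavyLines S).ncard = m} (n * (n - 3) / 6 + 1) :=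
  Eff.orchard n hn

end Pool.Agent.Results.MP_214199_co.OrchardThreshold
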